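import Mathlib
import Pool.Agent.N993.CP.Final
import Pool.Agent.H916Y.Main
import Pool.Agent.L5helper47.TP.Main

/-!
# Degrees for which the Tate characters are generated
-/

set_option autoImplicit false
set_option linter.all false

namespace Pool.Agent.L5helper29.TQ

open Finset Pool.Agent.H916R2 Pool.Agent.H916T Pool.Agent.N993 Pool.Agent.N993.CP
  Pool.Agent.N214.FT

/-- The base: `CBase` (characters of classes of cycles on surfaces and products of two curves,
standard characters of Aoki, Hodge characters of characteristic zero generated by such characters) and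
the modular Tate characters. -/
def TateBase (p m : ℕ) (s : Multiset (ZMod m)) : Prop := CBase p m s ∨ ModularTate p m s

/-- The multiset `S` of classes modulo `m` is empty, or `N S`, for some `N > 0` prime to `p`, is in
the closure of the family `TateBase` modulo `N m` (characters of classes of cycles of Fermat
varieties) and of the pairs `{a, - a}`, under addition and under removal of pairs. -/
def FermatGenerated (p m : ℕ) (S : Multiset (ZMod m)) : Prop :=
  S = 0 ∨ ∃ N : ℕ, 0 < N ∧ p.Coprime N ∧
    Pool.Agent.H916T.Generated (N * m) (TateBase p (N * m))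
      (S.map fun a => ((N * a.val : ℕ) : ZMod (N * m)))

/-- `- 1` is a power of `p` modulo `m`; or `m` is a power of a prime or twice such a power; or all odd
prime factors of `m` are `3` modulo `4`; or `m` is not divisible by `4` and has at most two odd prime
factors, and the order of `p` modulo them is even; or `m` is in the list `SmallDegree`; or the order
of `p` modulo `m` is odd and the prime factors of `m` have the property `MutualSquares` or
the property `ThreePrimes`. -/
def GoodPair (p m : ℕ) : Prop :=
  (∃ j : ℕ, (p : ZMod m) ^ j = -1) ∨ (∃ l k : ℕ, l.Prime ∧ (m = l ^ k ∨ m = 2 * l ^ k)) ∨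
    (∀ q : ℕ, q.Prime → q ∣ m → q = 2 ∨ q % 4 = 3) ∨
    (¬ 4 ∣ m ∧ (m.primeFactors.erase 2).card ≤ 2 ∧
      ∀ q : ℕ, q.Prime → q ∣ m → q ≠ 2 → Even (orderOf (p : ZMod q))) ∨
    SmallDegree m ∨ (Odd (orderOf (p : ZMod m)) ∧ (MutualSquares m ∨ ThreePrimes m))

/-- For each set `K` of odd primes the number of members of `S` whose (additive) order modulo `m` has
exactly the prime divisors `K` is even. -/
def EvenSupports {m : ℕ} (S : Multiset (ZMod m)) : Prop :=
  ∀ K : Finset ℕ, 2 ∉ K → Even (S.countP fun a => (addOrderOf a).primeFactors = K)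

theorem EvenSupports.add {m : ℕ} {S T : Multiset (ZMod m)} (hS : EvenSupports S)
    (hT : EvenSupports T) : EvenSupports (S + T) := by
  intro K hK
  rw [Multiset.countP_add]
  exact (hS K hK).add (hT K hK)

theorem EvenSupports.sum {m : ℕ} {ι : Type} (A : Finset ι) (s : ι → Multiset (ZMod m))
    (h : ∀ i ∈ A, EvenSupports (s i)) : EvenSupports (∑ i ∈ A, s i) := by
  classical
  induction A using Finset.induction_on with
  | empty =>
    intro K _
    rw [Finset.sum_empty, Multiset.countP_zero]
    exact Even.zero
  | insert a A ha ih =>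
    rw [Finset.sum_insert ha]
    exact (h a (Finset.mem_insert_self a A)).add
      (ih fun i hi => h i (Finset.mem_insert_of_mem hi))

/-- counting the members of a multiset by the values of a function -/
theorem countP_fiber {α β : Type} [DecidableEq β] (c : α → β) (E : α → Prop) [DecidablePred E]
    (T : Finset β) (S : Multiset α) (h : ∀ a ∈ S, c a ∈ T) :
    S.countP E = ∑ K ∈ T, S.countP (fun a => c a = K ∧ E a) := by
  induction S using Multiset.induction_on with
  | empty => simp
  | cons a S ih =>
    rw [Multiset.countP_cons, ih fun b hb => h b (Multiset.mem_cons_of_mem hb)]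
    simp only [Multiset.countP_cons]
    rw [Finset.sum_add_distrib]
    congr 1
    by_cases hE : E a
    · rw [if_pos hE, Finset.sum_eq_single (c a)]
      · rw [if_pos ⟨rfl, hE⟩]
      · intro b _ hb
        rw [if_neg fun h1 => hb h1.1.symm]
      · intro h1
        exact absurd (h a (Multiset.mem_cons_self a S)) h1
    · rw [if_neg hE]
      symm
      apply Finset.sum_eq_zero
      intro b _
      rw [if_neg fun h1 => hE h1.2]

theorem of_supports {p m : ℕ} (hp : p.Prime) [NeZero m] (hpm : p.Coprime m)
    {S : Multiset (ZMod m)} (hS : IsTate p m S) (hev : EvenSupports S) :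
    FermatGenerated p m S := by
  by_cases hne : S = 0
  · exact Or.inl hne
  have hnz : ∀ b ∈ S, b ≠ 0 := fun b hb h0 => hS.1 (h0 ▸ hb)
  let c : ZMod m → Finset ℕ := fun b => if 2 ∣ addOrderOf b then {2} else
    (addOrderOf b).primeFactors
  have hc : ∀ a b : ZMod m, a ≠ 0 → b ≠ 0 → c a = c b → H916Z.Link p a b := by
    intro a b ha hb hab
    refine ⟨ha, hb, ?_⟩
    change (if 2 ∣ addOrderOf a then {2} else (addOrderOf a).primeFactors) =
      (if 2 ∣ addOrderOf b then {2} else (addOrderOf b).primeFactors) at hab
    by_cases h1 : 2 ∣ addOrderOf a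
    · by_cases h2 : 2 ∣ addOrderOf b
      · exact Or.inr (Or.inl ⟨h1, h2⟩)
      · rw [if_pos h1, if_neg h2] at hab
        exfalso
        apply h2
        have h3 : 2 ∈ (addOrderOf b).primeFactors := by
          rw [← hab]
          exact Finset.mem_singleton_self 2
        exact Nat.dvd_of_mem_primeFactors h3
    · by_cases h2 : 2 ∣ addOrderOf b
      · rw [if_neg h1, if_pos h2] at hab
        exfalso
        apply h1
        have h3 : 2 ∈ (addOrderOf a).primeFactors := by
          rw [hab]
          exact Finset.mem_singleton_self 2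
        exact Nat.dvd_of_mem_primeFactors h3
      · rw [if_neg h1, if_neg h2] at hab
        exact Or.inl hab
  -- the classes with odd orders
  have hodd : ∀ K : Finset ℕ, K ≠ {2} → Even (S.countP fun a => c a = K) := by
    intro K hK
    by_cases h2 : 2 ∈ K
    · have h0 : S.countP (fun a => c a = K) = 0 := by
        rw [Multiset.countP_eq_zero]
        intro a _ h
        change (if 2 ∣ addOrderOf a then {2} else (addOrderOf a).primeFactors) = K at h
        by_cases h1 : 2 ∣ addOrderOf a
        · rw [if_pos h1] at h
          exact hK h.symm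
        · rw [if_neg h1] at h
          rw [← h] at h2
          exact h1 (Nat.dvd_of_mem_primeFactors h2)
      rw [h0]
      exact Even.zero
    · have h0 : S.countP (fun a => c a = K) =
          S.countP (fun a => (addOrderOf a).primeFactors = K) := by
        apply Multiset.countP_congr rfl
        intro a _
        simp only [eq_iff_iff]
        change (if 2 ∣ addOrderOf a then {2} else (addOrderOf a).primeFactors) = K ↔ _
        by_cases h1 : 2 ∣ addOrderOf a
        · rw [if_pos h1]
          constructor
          · intro h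
            exact absurd h.symm hK
          · intro h
            exfalso
            apply h2
            rw [← h]
            exact Nat.mem_primeFactors.2 ⟨Nat.prime_two, h1, (addOrderOf_pos a).ne'⟩
        · rw [if_neg h1]
      rw [h0]
      exact hev K h2
  let T : Finset (Finset ℕ) := insert {2} (S.toFinset.image c)
  have hT : ∀ a ∈ S, c a ∈ T := fun a ha => Finset.mem_insert_of_mem
    (Finset.mem_image_of_mem c (Multiset.mem_toFinset.2 ha))
  have hall : ∀ K : Finset ℕ, Even (S.countP fun a => c a = K) := by
    intro K
    by_cases hK : K = {2}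
    · subst hK
      have h1 := countP_fiber c (fun _ => True) T S hT
      have h2 : S.countP (fun _ => True) = Multiset.card S :=
        Multiset.countP_eq_card.mpr fun _ _ => trivial
      rw [h2, ← Finset.add_sum_erase T _ (Finset.mem_insert_self {2} _)] at h1
      simp only [and_true] at h1
      have h3 : Even (∑ K ∈ T.erase {2}, S.countP fun a => c a = K) :=
        Finset.even_sum _ fun K hK => hodd K (Finset.ne_of_mem_erase hK)
      have h4 := hS.2.1
      rw [h1, Nat.even_add] at h4
      exact h4.2 h3
    · exact hodd K hK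
  have hpar : ∀ a : ZMod m, Even (@Multiset.countP _
      (fun b => Relation.EqvGen (H916Z.Link p) a b) (fun b => Classical.propDecidable _) S) := by
    intro a
    letI : DecidablePred (fun b => Relation.EqvGen (H916Z.Link p) a b) :=
      fun b => Classical.propDecidable _
    change Even (S.countP (fun b => Relation.EqvGen (H916Z.Link p) a b))
    rw [countP_fiber c _ T S hT]
    apply Finset.even_sum
    intro K _
    by_cases h1 : ∃ b ∈ S, c b = K ∧ Relation.EqvGen (H916Z.Link p) a b
    · obtain ⟨b, hb, hbK, hab⟩ := h1
      have h2 : S.countP (fun b => c b = K ∧ Relation.EqvGen (H916Z.Link p) a b) =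
          S.countP (fun b => c b = K) := by
        apply Multiset.countP_congr rfl
        intro b' hb'
        simp only [eq_iff_iff]
        refine ⟨fun h => h.1, fun h => ⟨h, ?_⟩⟩
        exact Relation.EqvGen.trans _ _ _ hab
          (Relation.EqvGen.rel _ _ (hc b b' (hnz b hb) (hnz b' hb') (hbK.trans h.symm)))
      rw [h2]
      exact hall K
    · have h2 : S.countP (fun b => c b = K ∧ Relation.EqvGen (H916Z.Link p) a b) = 0 := by
        rw [Multiset.countP_eq_zero]
        intro b hb h
        exact h1 ⟨b, hb, h⟩
      rw [h2]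
      exact Even.zero
  obtain ⟨N, hN, hpN, H⟩ := H916Y.parity_main hp (NeZero.pos m) hpm hS hne hpar
  refine Or.inr ⟨N, hN, hpN, H916Z.generated_mono ?_ (H (N * m) rfl)⟩
  rintro s (h | h)
  · exact Or.inl (Or.inl h)
  · exact Or.inl (Or.inr (Or.inr (Or.inr h)))

theorem of_classes {p m : ℕ} (hp : p.Prime) [NeZero m] (hpm : p.Coprime m)
    {S : Multiset (ZMod m)} (hS : IsTate p m S) (hne : S ≠ 0) (T : ZMod m → Prop) [DecidablePred T]
    (hT : ∀ a b : ZMod m, a ≠ 0 → b ≠ 0 → (T a ↔ T b) → H916Z.Link p a b)
    (hev : Even (S.countP T)) : FermatGenerated p m S := by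
  have hpar : ∀ a : ZMod m, Even (@Multiset.countP _
      (fun b => Relation.EqvGen (H916Z.Link p) a b) (fun b => Classical.propDecidable _) S) := by
    intro a
    letI : DecidablePred (fun b => Relation.EqvGen (H916Z.Link p) a b) :=
      fun b => Classical.propDecidable _
    change Even (S.countP (fun b => Relation.EqvGen (H916Z.Link p) a b))
    have hz : ∀ x y : ZMod m, Relation.EqvGen (H916Z.Link p) x y → (x = 0 ↔ y = 0) := by
      intro x y h
      induction h with
      | rel x y h => exact ⟨fun h1 => absurd h1 h.1, fun h1 => absurd h1 h.2.1⟩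
      | refl x => exact Iff.rfl
      | symm x y _ ih => exact ih.symm
      | trans x y z _ _ ih1 ih2 => exact ih1.trans ih2
    have hnz : ∀ b ∈ S, b ≠ 0 := fun b hb h0 => hS.1 (h0 ▸ hb)
    by_cases ha : a = 0
    · have h0 : S.countP (fun b => Relation.EqvGen (H916Z.Link p) a b) = 0 := by
        rw [Multiset.countP_eq_zero]
        intro b hb h
        exact hnz b hb ((hz a b h).1 ha)
      rw [h0]
      exact Even.zero
    · have hE : ∀ b : ZMod m, b ≠ 0 → (T a ↔ T b) → Relation.EqvGen (H916Z.Link p) a b :=
        fun b hb h => Relation.EqvGen.rel _ _ (hT a b ha hb h)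
      by_cases hall : ∀ b ∈ S, Relation.EqvGen (H916Z.Link p) a b
      · rw [Multiset.countP_eq_card.mpr hall]
        exact hS.2.1
      · push Not at hall
        obtain ⟨b0, hb0, hnb0⟩ := hall
        have hTb0 : ¬ (T a ↔ T b0) := fun h => hnb0 (hE b0 (hnz b0 hb0) h)
        have hiff : ∀ b ∈ S, (Relation.EqvGen (H916Z.Link p) a b ↔ (T a ↔ T b)) := by
          intro b hb
          refine ⟨fun h => ?_, hE b (hnz b hb)⟩
          by_contra hc
          have h1 : T b ↔ T b0 := by tauto
          have h2 := hT b b0 (hnz b hb) (hnz b0 hb0) h1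
          exact hnb0 (Relation.EqvGen.trans _ _ _ h (Relation.EqvGen.rel _ _ h2))
        by_cases hTa : T a
        · have h1 : S.countP (fun b => Relation.EqvGen (H916Z.Link p) a b) = S.countP T := by
            apply Multiset.countP_congr rfl
            intro b hb
            have := hiff b hb
            simp only [eq_iff_iff]
            tauto
          rw [h1]
          exact hev
        · have h1 : S.countP (fun b => Relation.EqvGen (H916Z.Link p) a b) =
              S.countP (fun b => ¬ T b) := by
            apply Multiset.countP_congr rfl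
            intro b hb
            have := hiff b hb
            simp only [eq_iff_iff]
            tauto
          rw [h1]
          have h2 := Multiset.card_eq_countP_add_countP T S
          have h3 := hS.2.1
          rw [h2, Nat.even_add] at h3
          exact h3.1 hev
  obtain ⟨N, hN, hpN, H⟩ := H916Y.parity_main hp (NeZero.pos m) hpm hS hne hpar
  refine Or.inr ⟨N, hN, hpN, H916Z.generated_mono ?_ (H (N * m) rfl)⟩
  rintro s (h | h)
  · exact Or.inl (Or.inl h)
  · exact Or.inl (Or.inr (Or.inr (Or.inr h)))

theorem of_allGenerated {p m : ℕ} {B : ∀ M : ℕ, Multiset (ZMod M) → Prop}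
    (h : L5helper47.TP.AllGenerated p m B) (hB : ∀ M t, B M t → TateBase p M t)
    {S : Multiset (ZMod m)} (hS : IsTate p m S) (hne : S ≠ 0) : FermatGenerated p m S := by
  obtain ⟨N, hN, hpN, H⟩ := h
  refine Or.inr ⟨N, hN, hpN, H916Z.generated_mono ?_ (H S hS hne)⟩
  rintro s (h | h | h)
  · exact Or.inl (Or.inl h)
  · exact Or.inl (Or.inr (Or.inr (Or.inr h)))
  · exact hB _ _ h

theorem of_one_class {p m : ℕ} (hp : p.Prime) [NeZero m] (hpm : p.Coprime m)
    {S : Multiset (ZMod m)} (hS : IsTate p m S) (hne : S ≠ 0)
    (hT : ∀ a b : ZMod m, a ≠ 0 → b ≠ 0 → H916Z.Link p a b) : FermatGenerated p m S := by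
  refine of_classes hp hpm hS hne (fun _ => False) (fun a b ha hb _ => hT a b ha hb) ?_
  rw [Multiset.countP_eq_zero.mpr (fun _ _ h => h)]
  exact Even.zero

theorem addOrderOf_dvd_level {m : ℕ} (a : ZMod m) : addOrderOf a ∣ m := by
  rw [addOrderOf_dvd_iff_nsmul_eq_zero, nsmul_eq_mul, ZMod.natCast_self, zero_mul]

theorem primeFactors_of_dvd {m l k : ℕ} (hl : l.Prime) {a : ZMod m} (ha : a ≠ 0)
    (h : addOrderOf a ∣ l ^ k) : (addOrderOf a).primeFactors = {l} := by
  obtain ⟨j, -, hj⟩ := (Nat.dvd_prime_pow hl).1 h
  rw [hj]
  apply Nat.primeFactors_prime_pow _ hl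
  rintro rfl
  rw [pow_zero, AddMonoid.addOrderOf_eq_one_iff] at hj
  exact ha hj

theorem countP_odd {m : ℕ} [NeZero m] (hm : 2 ∣ m) (S : Multiset (ZMod m)) :
    ((S.countP (fun b => Odd b.val) : ℕ) : ZMod 2) = ZMod.castHom hm (ZMod 2) S.sum := by
  induction S using Multiset.induction_on with
  | empty => simp
  | cons a S ih =>
    rw [Multiset.countP_cons, Multiset.sum_cons, map_add, ← ih, Nat.cast_add, add_comm]
    congr 1
    have h1 : ZMod.castHom hm (ZMod 2) a = ((a.val : ℕ) : ZMod 2) := by
      conv_lhs => rw [← ZMod.natCast_zmod_val a, map_natCast]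
    rw [h1]
    by_cases h : Odd a.val
    · rw [if_pos h, Nat.cast_one, eq_comm, ZMod.natCast_eq_one_iff_odd]
      exact h
    · rw [if_neg h, Nat.cast_zero, eq_comm, ZMod.natCast_eq_zero_iff_even]
      exact Nat.not_odd_iff_even.1 h

theorem fermatGenerated_of_tate {p m : ℕ} (hp : p.Prime) [NeZero m] (hpm : p.Coprime m)
    (hg : GoodPair p m) {S : Multiset (ZMod m)} (hS : IsTate p m S) : FermatGenerated p m S := by
  by_cases hne : S = 0
  · exact Or.inl hne
  rcases hg with ⟨j, hj⟩ | ⟨l, k, hl, hm⟩ | hm3 | ⟨h4, hcard, heven⟩ | hm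
  · -- `- 1` is a power of `p`
    have hW : ∀ a : ZMod m, W p a = 0 := by
      intro a
      have h1 := W_neg p a
      have h2 := W_pow_mul p j a
      rw [hj, neg_one_mul] at h2
      omega
    exact of_one_class hp hpm hS hne fun a b ha hb =>
      ⟨ha, hb, Or.inr (Or.inr fun t => by rw [hW, hW])⟩
  · rcases hm with hm | hm
    · refine of_one_class hp hpm hS hne fun a b ha hb => ⟨ha, hb, Or.inl ?_⟩
      rw [primeFactors_of_dvd hl ha ((addOrderOf_dvd_level a).trans (dvd_of_eq hm)),
        primeFactors_of_dvd hl hb ((addOrderOf_dvd_level b).trans (dvd_of_eq hm))]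
    · have h2m : 2 ∣ m := ⟨_, hm⟩
      by_cases hl2 : l = 2
      · have hm' : m = 2 ^ (k + 1) := by rw [hm, hl2, pow_succ, mul_comm]
        refine of_one_class hp hpm hS hne fun a b ha hb => ⟨ha, hb, Or.inl ?_⟩
        rw [primeFactors_of_dvd Nat.prime_two ha ((addOrderOf_dvd_level a).trans (dvd_of_eq hm')),
          primeFactors_of_dvd Nat.prime_two hb ((addOrderOf_dvd_level b).trans (dvd_of_eq hm'))]
      · have hlodd : ¬ 2 ∣ l ^ k := by
          intro h
          have h1 := Nat.prime_two.dvd_of_dvd_pow h
          rcases (Nat.dvd_prime hl).1 h1 with h3 | h3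
          · omega
          · exact hl2 h3.symm
        have key : ∀ a : ZMod m, ((l ^ k : ℕ) : ZMod m) * a = if Odd a.val then
            ((l ^ k : ℕ) : ZMod m) else 0 := by
          intro a
          have h2 : ((2 * l ^ k : ℕ) : ZMod m) = 0 := by
            rw [← hm]
            exact ZMod.natCast_self m
          conv_lhs => rw [← ZMod.natCast_zmod_val a]
          rcases Nat.even_or_odd' a.val with ⟨c, hc | hc⟩
          · have h3 : ¬ Odd a.val := by
              rw [Nat.not_odd_iff_even, hc]
              exact even_two_mul c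
            rw [if_neg h3, hc, ← Nat.cast_mul]
            have h4 : l ^ k * (2 * c) = 2 * l ^ k * c := by ring
            rw [h4, Nat.cast_mul, h2, zero_mul]
          · have h3 : Odd a.val := ⟨c, hc⟩
            rw [if_pos h3, hc, ← Nat.cast_mul]
            have h4 : l ^ k * (2 * c + 1) = 2 * l ^ k * c + l ^ k := by ring
            rw [h4, Nat.cast_add, Nat.cast_mul, h2, zero_mul, zero_add]
        refine of_classes hp hpm hS hne (fun a => Odd a.val)
          (fun a b ha hb hab => ⟨ha, hb, ?_⟩) ?_
        · have hodd : ∀ a : ZMod m, Odd a.val → 2 ∣ addOrderOf a := by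
            intro a ha1
            by_contra hc
            have h1 : Nat.Coprime (addOrderOf a) 2 :=
              ((Nat.prime_two.coprime_iff_not_dvd).2 hc).symm
            have h2 : addOrderOf a ∣ l ^ k :=
              h1.dvd_of_dvd_mul_left ((addOrderOf_dvd_level a).trans (dvd_of_eq hm))
            rw [addOrderOf_dvd_iff_nsmul_eq_zero, nsmul_eq_mul, key, if_pos ha1,
              ZMod.natCast_eq_zero_iff, hm] at h2
            have h3 := Nat.le_of_dvd (pow_pos hl.pos k) h2
            have h4 := pow_pos hl.pos k
            omega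
          have hevn : ∀ a : ZMod m, ¬ Odd a.val → addOrderOf a ∣ l ^ k := by
            intro a ha1
            rw [addOrderOf_dvd_iff_nsmul_eq_zero, nsmul_eq_mul, key, if_neg ha1]
          by_cases ha1 : Odd a.val
          · exact Or.inr (Or.inl ⟨hodd a ha1, hodd b (hab.1 ha1)⟩)
          · left
            rw [primeFactors_of_dvd hl ha (hevn a ha1),
              primeFactors_of_dvd hl hb (hevn b (fun h => ha1 (hab.2 h)))]
        · have h1 := countP_odd h2m S
          rw [hS.2.2.1, map_zero, ZMod.natCast_eq_zero_iff_even] at h1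
          exact h1
  · refine of_allGenerated (L5helper47.TP.main2 hp (NeZero.pos m) hpm one_pos
      (Nat.coprime_one_right p) ?_) (fun M t h => Or.inr h) hS hne
    rw [one_mul]
    exact L5helper47.TP.cond2_three hpm hm3
  · refine of_allGenerated (L5helper47.TP.main0 hp (NeZero.pos m) hpm one_pos
      (Nat.coprime_one_right p) ?_) (fun M t h => absurd h id) hS hne
    rw [one_mul]
    exact fun n hsq hodd h1n hnm =>
      L5helper47.TP.good_two (NeZero.pos m) hpm h4 hcard heven hsq hodd h1n hnm
  · obtain ⟨N, hN, hpN, H⟩ := N993.CP.final p m hp hpm hm S hS hne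
    exact Or.inr ⟨N, hN, hpN, H916Z.generated_mono (fun _ h => Or.inl h) H⟩

end Pool.Agent.L5helper29.TQ
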